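import Mathlib

set_option autoImplicit false

open Set Filter Topology Function

namespace Pool.Agent.H.MP_1e45a6

lemma book {P T : Type*} (S : P → T → P → (ℕ → T) → Prop) (h : ∀ p t, ∃ q f, S p t q f)
    (p0 : P) (t0 : T) : ∃ (p : ℕ → P) (t : ℕ → T), p 0 = p0 ∧ t 0 = t0 ∧
      ∀ n, S (p n) (t n) (p (n + 1)) fun k => t (Nat.pair n k + 1) := by
  choose q f h using h
  let G : ∀ n : ℕ, (∀ m, m < n → P × T) → P × T := fun n => Nat.casesOn n (fun _ => (p0, t0))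
    fun n F => (q (F n n.lt_succ_self).1 (F n n.lt_succ_self).2,
      f (F _ (Nat.lt_succ_of_le n.unpair_left_le)).1 (F _ (Nat.lt_succ_of_le n.unpair_left_le)).2
        n.unpair.2)
  let F : ℕ → P × T := fun n => Nat.strongRec G n
  have e : ∀ n, F n = G n fun m _ => F m := fun n => Nat.strongRec_eq G n
  refine ⟨fun n => (F n).1, fun n => (F n).2, congrArg Prod.fst (e 0), congrArg Prod.snd (e 0),
    fun n => ?_⟩
  convert h (F n).1 (F n).2 using 1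
  · exact congrArg Prod.fst (e (n + 1))
  · funext k
    exact (congrArg Prod.snd (e (Nat.pair n k + 1))).trans (by simp [G])

lemma dich {α ι : Type*} (B : ℕ → Set α) (u : α → Finset ι) :
    (∃ z : ℕ → α, (∀ k, z k ∈ B k) ∧ Pairwise (Disjoint on fun k => u (z k))) ∨
      ∃ k, ∃ G : Finset ι, ∀ y ∈ B k, ∃ g ∈ G, g ∈ u y := by
  classical
  refine or_iff_not_imp_right.2 fun h => ?_
  push Not at h
  choose z z1 z2 using h
  let G : ℕ → Finset ι := fun k => Nat.rec ∅ (fun k G => G ∪ u (z k G)) k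
  have m : Monotone G := monotone_nat_of_le_succ fun k => Finset.subset_union_left
  refine ⟨fun k => z k (G k), fun k => z1 _ _, (pairwise_disjoint_on _).2 fun i j h => ?_⟩
  exact Finset.disjoint_left.2 fun g a => z2 j _ g (m h (Finset.mem_union_right _ a))

variable {α ι : Type*} [DecidableEq ι] (c : α → ι → Bool) (s : α → Finset ι)

/-- a task -/
def Val (t : Set α × ℕ∞) : Prop := ∃ r : Finset ι, (∀ y ∈ t.1, ∀ z ∈ t.1, ∀ a ∈ r, c y a = c z a) ∧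
  ∀ y ∈ t.1, ((s y \ r).card : ℕ∞) ≤ t.2

variable {c s} {U : α → Set α} (hU : ∀ x y, (∀ a ∈ s x, c y a = c x a) → y ∈ U x)
  (H : ∀ (m : ℕ) (z : ℕ → α) (t : ℕ → Finset ι), (∀ k, (t k).card ≤ m) → Pairwise (Disjoint on t) →
    {y | ∀ k, ∃ a ∈ t k, c y a ≠ c (z k) a}.Countable)
include hU H

lemma core {t : Set α × ℕ∞} (h : Val c s t) (B : ℕ → Set α) (hB : ∀ k, B k ⊆ t.1) :
    ∃ C : Set (Set α × ℕ∞), C.Countable ∧ ((∃ z : ℕ → α, (∀ k, z k ∈ B k) ∧ ∀ y ∈ t.1,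
      (∃ k, y ∈ U (z k)) ∨ ∃ t' ∈ C, Val c s t' ∧ t'.2 < t.2 ∧ y ∈ t'.1) ∨
      ∃ k, ∀ y ∈ B k, ∃ t' ∈ C, Val c s t' ∧ t'.2 < t.2 ∧ y ∈ t'.1) := by
  obtain ⟨A, m⟩ := t
  obtain ⟨r, r1, r2⟩ := h
  induction m with
  | top =>
    exact ⟨_, countable_range fun j : ℕ => ({y | (s y).card ≤ j}, (j : ℕ∞)), .inr ⟨0, fun y _ =>
      ⟨_, ⟨(s y).card, rfl⟩, ⟨∅, by simp, by simp⟩, ENat.natCast_lt_top _, by simp⟩⟩⟩
  | coe m =>
  simp only [Nat.cast_le] at r2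
  rcases dich B (fun y => s y \ r) with ⟨z, z1, z2⟩ | ⟨k, G, hG⟩
  · refine ⟨_, (H m z _ (fun k => r2 _ (hB k (z1 k))) z2).image fun y => ({y}, 0), .inl ⟨z, z1,
      fun y hy => or_iff_not_imp_left.2 fun e => ?_⟩⟩
    have : ∀ k, ∃ a ∈ s (z k) \ r, c y a ≠ c (z k) a := fun k => by
      by_contra! a
      exact e ⟨k, hU _ _ fun g hg => if b : g ∈ r then r1 _ hy _ (hB k (z1 k)) g b else
        a g (Finset.mem_sdiff.2 ⟨hg, b⟩)⟩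
    refine ⟨_, ⟨y, this, rfl⟩, ⟨s y, by simp, by simp⟩, ?_, rfl⟩
    obtain ⟨a, b, -⟩ := this 0
    simpa using (Finset.card_pos.2 ⟨a, b⟩).trans_le (r2 _ (hB 0 (z1 0)))
  · refine ⟨_, (G.countable_toSet.prod countable_univ).image fun p : ι × Bool =>
      ({y ∈ A | p.1 ∈ s y \ r ∧ c y p.1 = p.2}, ((m - 1 : ℕ) : ℕ∞)), .inr ⟨k, fun y hy => ?_⟩⟩
    obtain ⟨g, g1, g2⟩ := hG y hy
    refine ⟨_, ⟨(g, c y g), ⟨g1, trivial⟩, rfl⟩, ⟨insert g r, fun y hy z hz a ha => ?_,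
      fun y hy => ?_⟩, ?_, hB k hy, g2, rfl⟩
    · rcases Finset.mem_insert.1 ha with rfl | ha
      exacts [hy.2.2.trans hz.2.2.symm, r1 y hy.1 z hz.1 a ha]
    · rw [Finset.sdiff_insert, Finset.card_erase_of_mem hy.2.1, Nat.cast_le]
      exact Nat.sub_le_sub_right (r2 y hy.1) 1
    · exact Nat.cast_lt.2 (Nat.sub_one_lt ((Finset.card_pos.2 ⟨g, g2⟩).trans_le
        (r2 _ (hB k hy))).ne')

lemma hl (m : ℕ∞) : ∀ B, Val c s (B, m) → ∃ C ⊆ B, C.Countable ∧ ∀ y ∈ B, ∃ x ∈ C, y ∈ U x := by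
  induction m using WellFoundedLT.induction with
  | _ m ih =>
  intro B h
  have : ∀ t : Set α × ℕ∞, Val c s t ∧ t.2 < m → ∃ C ⊆ t.1 ∩ B, C.Countable ∧
      ∀ y ∈ t.1 ∩ B, ∃ x ∈ C, y ∈ U x := fun t ⟨⟨r, r1, r2⟩, e⟩ =>
    ih _ e _ ⟨r, fun y a z b => r1 y a.1 z b.1, fun y a => r2 y a.1⟩
  choose! D d1 d2 d3 using this
  obtain ⟨C, c1, c2⟩ := core hU H h (fun _ => B) fun _ => subset_rfl
  have e1 : (⋃ t ∈ {t ∈ C | Val c s t ∧ t.2 < m}, D t) ⊆ B :=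
    iUnion₂_subset fun t a => (d1 t a.2).trans inter_subset_right
  have e2 : (⋃ t ∈ {t ∈ C | Val c s t ∧ t.2 < m}, D t).Countable :=
    (c1.mono (sep_subset _ _)).biUnion fun t a => d2 t a.2
  have e3 : ∀ y ∈ B, (∃ t ∈ C, Val c s t ∧ t.2 < m ∧ y ∈ t.1) →
      ∃ x ∈ ⋃ t ∈ {t ∈ C | Val c s t ∧ t.2 < m}, D t, y ∈ U x := fun y hy ⟨t, a, b, d, e⟩ =>
    (d3 t ⟨b, d⟩ y ⟨e, hy⟩).imp fun x k => ⟨mem_biUnion (x := t) ⟨a, b, d⟩ k.1, k.2⟩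
  rcases c2 with ⟨z, z1, z2⟩ | ⟨-, h⟩
  · refine ⟨_, union_subset (range_subset_iff.2 z1) e1, (countable_range z).union e2,
      fun y hy => (z2 y hy).elim (fun ⟨k, a⟩ => ⟨_, .inl ⟨k, rfl⟩, a⟩) fun a =>
        (e3 y hy a).imp fun x k => ⟨.inr k.1, k.2⟩⟩
  · exact ⟨_, e1, e2, fun y hy => e3 y hy (h y hy)⟩

/-- locally finite in the topology generated by the assignment -/
def LF (U : α → Set α) (D : Set α) : Prop :=
  ∀ z, ∃ F : Finset α, (∀ x ∈ F, z ∈ U x) ∧ {y ∈ D | ∀ x ∈ F, y ∈ U x}.Finite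

lemma step (p : Set α) (t : Set α × ℕ∞) : ∃ (q : Set α) (f : ℕ → Set α × ℕ∞), p ⊆ q ∧
    (LF U p → LF U q) ∧ (∀ y ∈ q, y ∈ p ∨ ∀ x ∈ p, y ∉ U x) ∧ (Val c s t → ∀ y ∈ t.1,
      (∃ x ∈ q, y ∈ U x) ∨ ∃ k, Val c s (f k) ∧ (f k).2 < t.2 ∧ y ∈ (f k).1) := by
  classical
  by_cases h : Val c s t
  swap
  · exact ⟨p, fun _ => t, subset_rfl, id, fun _ => .inl, fun a => (h a).elim⟩
  obtain ⟨C, c1, c2, c3⟩ := hl hU H ⊤ {y | ∀ x ∈ p, y ∉ U x} ⟨∅, by simp, by simp⟩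
  obtain ⟨g, hg⟩ := countable_iff_exists_injOn.1 c2
  obtain ⟨T, t1, t2⟩ := core hU H h
    (fun k => {y ∈ t.1 | (∀ x ∈ p, y ∉ U x) ∧ ∀ x ∈ C, g x < k → y ∉ U x}) fun _ => sep_subset _ _
  obtain ⟨f, hf⟩ := countable_iff_exists_subset_range.1 t1
  have k : ∀ {y}, (∃ t' ∈ T, Val c s t' ∧ t'.2 < t.2 ∧ y ∈ t'.1) →
      ∃ k, Val c s (f k) ∧ (f k).2 < t.2 ∧ y ∈ (f k).1 := fun ⟨_, a, b⟩ => by
    obtain ⟨k, rfl⟩ := hf a; exact ⟨k, b⟩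
  have u : ∀ {E}, LF U E → LF U p → LF U (p ∪ E) := fun h1 h2 z => by
    obtain ⟨F, a, b⟩ := h1 z
    obtain ⟨G, d, e⟩ := h2 z
    exact ⟨F ∪ G, fun x hx => (Finset.mem_union.1 hx).elim (a x) (d x), (e.union b).subset
      fun y hy => hy.1.imp (fun k => ⟨k, fun x hx => hy.2 x (Finset.mem_union_right _ hx)⟩)
        fun k => ⟨k, fun x hx => hy.2 x (Finset.mem_union_left _ hx)⟩⟩
  rcases t2 with ⟨z, z1, z2⟩ | ⟨j, hj⟩
  · refine ⟨p ∪ range z, f, subset_union_left, u fun w => ?_, ?_, fun _ y hy =>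
      (z2 y hy).imp (fun ⟨i, a⟩ => ⟨_, .inr ⟨i, rfl⟩, a⟩) k⟩
    · by_cases a : ∀ x ∈ p, w ∉ U x
      · obtain ⟨x, x1, x2⟩ := c3 w a
        refine ⟨{x}, by simpa, ((finite_Iic (g x)).image z).subset ?_⟩
        rintro _ ⟨⟨i, rfl⟩, b⟩
        exact ⟨i, not_lt.1 fun e => (z1 i).2.2 x x1 e (b x (by simp)), rfl⟩
      · push Not at a
        obtain ⟨x, x1, x2⟩ := a
        refine ⟨{x}, by simpa, finite_empty.subset ?_⟩
        rintro _ ⟨⟨i, rfl⟩, b⟩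
        exact (z1 i).2.1 x x1 (b x (by simp))
    · rintro _ (a | ⟨i, rfl⟩)
      exacts [.inl a, .inr (z1 i).2.1]
  · refine ⟨p ∪ {x ∈ C | g x < j}, f, subset_union_left, u fun w => ⟨∅, by simp, .subset
      (.of_injOn (fun x a => a.2) (hg.mono (sep_subset _ fun x => g x < j)) (finite_Iio j))
        (sep_subset _ _)⟩, fun y a => a.imp_right fun b => c1 b.1, fun _ y hy =>
          or_iff_not_imp_left.2 fun a => k (hj y ⟨hy, fun x b d => a ⟨x, .inl b, d⟩,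
            fun x b d e => a ⟨x, .inr ⟨b, d⟩, e⟩⟩)⟩

theorem main : ∃ D : Set α, (∀ y, ∃ x ∈ D, y ∈ U x) ∧ ∀ z, ∃ F : Finset α, F.Nonempty ∧
    (∀ x ∈ F, z ∈ U x) ∧ {y ∈ D | ∀ x ∈ F, y ∈ U x}.Finite := by
  classical
  obtain ⟨p, t, p0, t0, h⟩ := book _ (step hU H) ∅ (univ, ⊤)
  choose h1 h2 h3 h4 using h
  have m : Monotone p := monotone_nat_of_le_succ h1
  have l : ∀ n, LF U (p n) := fun n => Nat.rec (fun z => ⟨∅, by simp, by simp [p0]⟩) h2 n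
  have a : ∀ (m : ℕ∞) n, (t n).2 = m → Val c s (t n) → ∀ y ∈ (t n).1, ∃ n, ∃ x ∈ p n, y ∈ U x := by
    intro m
    induction m using WellFoundedLT.induction with
    | _ m ih =>
    rintro n rfl v y hy
    exact (h4 n v y hy).elim (fun a => ⟨_, a⟩) fun ⟨k, a, b, d⟩ => ih _ b _ rfl a y d
  replace a := fun y => a _ 0 rfl (t0 ▸ ⟨∅, by simp, by simp⟩) y (t0 ▸ trivial)
  refine ⟨⋃ n, p n, fun y => (a y).elim fun n ⟨x, b, d⟩ => ⟨x, mem_iUnion.2 ⟨n, b⟩, d⟩, fun z => ?_⟩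
  obtain ⟨n, d, d1, d2⟩ := a z
  obtain ⟨F, f1, f2⟩ := l n z
  refine ⟨insert d F, by simp, by simpa using ⟨d2, f1⟩, f2.subset fun y hy =>
    ⟨?_, fun x hx => hy.2 x (Finset.mem_insert_of_mem hx)⟩⟩
  obtain ⟨j, hj⟩ := mem_iUnion.1 hy.1
  induction j with
  | zero => exact m n.zero_le hj
  | succ j ih =>
    rcases lt_or_ge j n with e | e
    · exact m e hj
    · exact ih ((h3 j y hj).resolve_right fun k => k d (m e d1) (hy.2 d (by simp)))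

omit hU H in
theorem strongD {ι : Type*} [LinearOrder ι] {X : Set (ι → Bool)}
    (h : ∀ (n : ℕ) (b : Fin n → Bool) (A : Set (Finset ι)), A.Infinite → (∀ F ∈ A, F.card = n) →
      A.Pairwise Disjoint →
      {x ∈ X | ¬ ∃ F ∈ A, ∃ e : F.card = n, ∀ i, x (F.orderEmbOfFin e i) = b i}.Countable)
    (U : X → Set X) (hU : ∀ x, IsOpen (U x) ∧ x ∈ U x) : ∃ D : Set X, (∀ y, ∃ x ∈ D, y ∈ U x) ∧
      ∀ z, ∃ F : Finset X, F.Nonempty ∧ (∀ x ∈ F, z ∈ U x) ∧ {y ∈ D | ∀ x ∈ F, y ∈ U x}.Finite := by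
  have : ∀ x : X, ∃ s : Finset ι, ∀ y : X, (∀ a ∈ s, y.1 a = x.1 a) → y ∈ U x := fun x => by
    obtain ⟨W, w1, w2⟩ := mem_nhds_subtype _ _ _ |>.1 ((hU x).1.mem_nhds (hU x).2)
    rw [nhds_pi, Filter.mem_pi] at w1
    obtain ⟨S, s1, t, t1, t2⟩ := w1
    exact ⟨s1.toFinset, fun y hy => w2 (t2 fun j hj =>
      hy j (s1.mem_toFinset.2 hj) ▸ mem_of_mem_nhds (t1 j))⟩
  choose s hs using this
  refine main (c := Subtype.val) hs fun m z t t1 t2 => ?_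
  by_cases e : ∃ k, t k = ∅
  · obtain ⟨k, e⟩ := e
    exact countable_empty.mono fun y hy => by simpa [e] using hy k
  have i : Injective t := fun i j a => not_not.1 fun b =>
    e ⟨j, (Finset.disjoint_self_iff_empty _).1 (by simpa [onFun, a] using t2 b)⟩
  obtain ⟨⟨n, b⟩, hb⟩ := Finite.exists_infinite_fiber (β := Σ n : Fin (m + 1), Fin n → Bool)
    fun k => ⟨⟨_, Nat.lt_succ_of_le (t1 k)⟩, fun i => (z k).1 ((t k).orderEmbOfFin rfl i)⟩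
  refine ((h n b _ ((infinite_coe_iff.1 hb).image i.injOn) ?_ ?_).preimage_of_injOn
    Subtype.val_injective.injOn).mono fun y hy => And.intro y.2 ?_
  · rintro _ ⟨k, hk, rfl⟩
    cases hk; rfl
  · rintro _ ⟨k, -, rfl⟩ _ ⟨j, -, rfl⟩ a
    exact t2 fun b => a (b ▸ rfl)
  · rintro ⟨_, ⟨k, hk, rfl⟩, a, d⟩
    cases hk
    obtain ⟨g, g1, g2⟩ := hy k
    obtain ⟨j, rfl⟩ := ((t k).range_orderEmbOfFin rfl).ge g1
    exact g2 (d j)

end Pool.Agent.H.MP_1e45a6
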